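import Pool.Agent.Helper68.MA.MC

/-!
# Assembly of the analysis in the model (block MX, helper68): versions with codes as a hypothesis
-/

namespace Pool.Agent.Helper68.MA

open Pool.Agent.Helper96.Fc
open Pool.Agent.Helper89.FV
open Pool.Agent.Helper60.MA

/-- the statement of block MG -/
def CodeStmt (𝓡 : Set (ℕ → ℕ → ℕ → Prop)) : Prop := ∀ N : Set ZFSet.{0}, IsZFC N →
    HasTabs N 𝓡 → ∀ A, Meager N A → ∃ I w, st I ∈ N ∧ st w ∈ N ∧ Inf I ∧
      ∀ x, st x ∈ A → ¬ Mtch I w x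

theorem st_xor_mem {N : Set ZFSet.{0}} (hN : IsZFC N) {w y : ℕ → Bool} (hw : st w ∈ N)
    (hy : st y ∈ N) : (st fun k => xor (w k) (y k)) ∈ N := by
  obtain ⟨b, hb, h⟩ := sep2 hN (R := fun z p q => ¬ (z ∈ p ↔ z ∈ q))
    (.neg (.iff (.mem 0 1) (.mem 0 2))) (om_mem hN) hw hy
  have : b = st fun k => xor (w k) (y k) := by
    ext z
    rw [h, mem_om, mem_st (x := fun k => xor (w k) (y k))]
    constructor
    · rintro ⟨⟨n, rfl⟩, h1⟩
      refine ⟨n, ?_, rfl⟩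
      rw [nat_mem_st, nat_mem_st] at h1
      show xor (w n) (y n) = true
      revert h1
      cases w n <;> cases y n <;> simp
    · rintro ⟨n, h1, rfl⟩
      refine ⟨⟨n, rfl⟩, ?_⟩
      rw [nat_mem_st, nat_mem_st]
      have h1 : xor (w n) (y n) = true := h1
      revert h1
      cases w n <;> cases y n <;> simp
  rwa [← this]

theorem meagerAdd_of_caught_aux {𝓡 : Set (ℕ → ℕ → ℕ → Prop)} (h𝓡 : 𝓡.Countable)
    (hcode : CodeStmt 𝓡) : ∃ 𝓡 : Set (ℕ → ℕ → ℕ → Prop), 𝓡.Countable ∧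
    ∀ N : Set ZFSet.{0}, IsZFC N → HasTabs N 𝓡 → ∀ X, Pts N X →
      (∀ I, st I ∈ N → Inf I → ∃ K y, st K ∈ N ∧ st y ∈ N ∧ Inf K ∧
        ∀ x, st x ∈ X → Caught I K y x) → MeagerAdd N X := by
  obtain ⟨𝓡', h𝓡', hm⟩ := meager_of_code
  refine ⟨𝓡 ∪ 𝓡', h𝓡.union h𝓡', ?_⟩
  intro N hN hT X hX hc
  refine ⟨hX, ?_⟩
  intro A B _ hA hBN hs
  obtain ⟨I, w, hI, hw, hInf, hA1⟩ := hcode N hN (fun R hR => hT R (Or.inl hR)) A hA
  obtain ⟨K, y, hK, hy, hKinf, hX1⟩ := hc I hI hInf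
  refine hm N hN (fun R hR => hT R (Or.inr hR)) K (fun k => xor (w k) (y k)) hK
    (st_xor_mem hN hw hy) hKinf B ⟨hBN, ?_⟩ ?_
  · intro z hz
    obtain ⟨x, a, -, -, rfl⟩ := (hs z).1 hz
    exact ⟨_, rfl⟩
  · intro z hz
    obtain ⟨x, a, hx, ha, hza⟩ := (hs _).1 hz
    have hza := st_inj hza
    obtain ⟨m, hm⟩ := hX1 x hx
    have h1 := hA1 a ha
    unfold Mtch at h1
    push Not at h1
    obtain ⟨m', hm'⟩ := h1
    refine ⟨max m m', fun l l' h2 h3 h4 h5 => ?_⟩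
    obtain ⟨u, v, h6, h7, h8, h9, h10, h11⟩ := hm l l' (le_trans (le_max_left _ _) h2) h3 h4 h5
    have h12 : m' ≤ l := le_trans (le_max_right _ _) h2
    by_contra h13
    push Not at h13
    apply hm' l'
    refine ⟨u, v, by omega, h7, h8, h9, h10, fun k h14 h15 => ?_⟩
    have h16 := h13 k (by omega) (by omega)
    rw [hza] at h16
    have h17 := h11 k h14 h15
    have h16 : xor (x k) (a k) = xor (w k) (y k) := h16
    rw [h17] at h16
    revert h16
    cases a k <;> cases w k <;> cases y k <;> simp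

theorem not_meagerAdd_of_mtch_aux {𝓡 : Set (ℕ → ℕ → ℕ → Prop)} (h𝓡 : 𝓡.Countable)
    (hcode : CodeStmt 𝓡) : ∃ 𝓡 : Set (ℕ → ℕ → ℕ → Prop), 𝓡.Countable ∧
    ∀ N : Set ZFSet.{0}, IsZFC N → HasTabs N 𝓡 → ∀ U, Pts N U →
      (∀ J h, st J ∈ N → st h ∈ N → Inf J → ∃ x, st x ∈ U ∧ Mtch J h x) →
      ¬ MeagerAdd N U := by
  refine ⟨𝓡, h𝓡, ?_⟩
  intro N hN hT U hU hm hadd
  have h0 : (st fun _ => false) = ∅ := by
    rw [ZFSet.eq_empty]
    intro z hz
    obtain ⟨n, h1, -⟩ := mem_st.1 hz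
    exact absurd h1 (by simp)
  have h0N : (st fun _ => false) ∈ N := by
    rw [h0, ← nat_zero]
    exact nat_mem hN 0
  have hAN : ({st fun _ => false} : ZFSet.{0}) ∈ N := singleton_mem hN h0N
  have hPts : Pts N ({st fun _ => false} : ZFSet.{0}) := by
    refine ⟨hAN, fun z hz => ?_⟩
    rw [ZFSet.mem_singleton] at hz
    exact ⟨_, hz⟩
  have hMe : Meager N ({st fun _ => false} : ZFSet.{0}) := by
    refine ⟨{ZFSet.pair (nat 0) {st fun _ => false}},
      singleton_mem hN ((pair_mem_iff hN).2 ⟨nat_mem hN 0, hAN⟩), ?_, ?_, ?_⟩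
    · intro n C D h1 h2
      rw [ZFSet.mem_singleton] at h1 h2
      rw [(ZFSet.pair_inj.1 h1).2, (ZFSet.pair_inj.1 h2).2]
    · intro n C h1 s
      rw [ZFSet.mem_singleton] at h1
      rw [(ZFSet.pair_inj.1 h1).2]
      refine ⟨[true], fun x hx hi => ?_⟩
      rw [ZFSet.mem_singleton] at hx
      have h2 := st_inj hx
      have h3 := hi s.length true (by simp)
      rw [h2] at h3
      simp at h3
    · intro z hz
      exact ⟨0, _, ZFSet.mem_singleton.2 rfl, hz⟩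
  have hsum : IsSum U {st fun _ => false} U := by
    intro z
    constructor
    · intro hz
      obtain ⟨x, rfl⟩ := hU.2 z hz
      refine ⟨x, fun _ => false, hz, ZFSet.mem_singleton.2 rfl, ?_⟩
      congr 1
      funext n
      simp
    · rintro ⟨x, y, hx, hy, rfl⟩
      rw [ZFSet.mem_singleton] at hy
      have h2 := st_inj hy
      have h3 : (fun n => xor (x n) (y n)) = x := by
        funext n
        simp [h2]
      rwa [h3]
  obtain ⟨I, w, hI, hw, hInf, h1⟩ := hcode N hN hT U (hadd.2 _ _ hPts hMe hU.1 hsum)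
  obtain ⟨x, hx, h2⟩ := hm I w hI hw hInf
  exact h1 x hx h2

end Pool.Agent.Helper68.MA
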