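import Pool.Agent.Helper60.MA.GDefs

/-!
# Sets with a code are meager (block MC, helper68)
-/

namespace Pool.Agent.Helper68.MA

open Pool.Agent.Helper96.Fc
open Pool.Agent.Helper89.FV
open Pool.Agent.Helper60.MA (st)

/-! ### Points of the Cantor space as sets -/

theorem nat_mem_nat {m n : ℕ} : nat m ∈ nat n ↔ m < n := by
  unfold nat
  rw [Ordinal.mem_toZFSet_iff]
  constructor
  · rintro ⟨a, ha, h⟩
    have := Ordinal.toZFSet_injective h
    rw [this] at ha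
    exact_mod_cast ha
  · intro h
    exact ⟨m, by exact_mod_cast h, rfl⟩

theorem mem_nat {z : ZFSet.{0}} {n : ℕ} : z ∈ nat n ↔ ∃ m, m < n ∧ z = nat m := by
  induction n with
  | zero =>
    rw [nat_zero]
    constructor
    · intro h
      exact absurd h (ZFSet.notMem_empty z)
    · rintro ⟨m, hm, -⟩
      omega
  | succ n ih =>
    rw [nat_succ, ZFSet.mem_insert_iff, ih]
    constructor
    · rintro (rfl | ⟨m, hm, rfl⟩)
      · exact ⟨n, by omega, rfl⟩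
      · exact ⟨m, by omega, rfl⟩
    · rintro ⟨m, hm, rfl⟩
      rcases Nat.lt_succ_iff_lt_or_eq.1 hm with h | rfl
      · exact Or.inr ⟨m, h, rfl⟩
      · exact Or.inl rfl

theorem mem_st {x : ℕ → Bool} {z : ZFSet.{0}} : z ∈ st x ↔ ∃ n, x n = true ∧ z = nat n := by
  unfold st
  rw [ZFSet.mem_sep, mem_om]
  constructor
  · rintro ⟨-, h⟩
    exact h
  · rintro ⟨n, h1, h2⟩
    exact ⟨⟨n, h2⟩, n, h1, h2⟩

theorem nat_mem_st {x : ℕ → Bool} {n : ℕ} : nat n ∈ st x ↔ x n = true := by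
  rw [mem_st]
  constructor
  · rintro ⟨m, h1, h2⟩
    rwa [nat_inj h2]
  · intro h
    exact ⟨n, h, rfl⟩

theorem st_inj {x y : ℕ → Bool} (h : st x = st y) : x = y := by
  funext n
  have h1 : nat n ∈ st x ↔ nat n ∈ st y := by rw [h]
  rw [nat_mem_st, nat_mem_st] at h1
  exact Bool.eq_iff_iff.2 h1

end Pool.Agent.Helper68.MA

namespace Pool.Agent.Helper60.MA

open Pool.Agent.Helper96.Fc
open Pool.Agent.Helper89.FV
open Pool.Agent.Helper68.MA

/-- block MC: sets with a code are meager (`F` is the set of the pairs `(n, C)`, `C` the set of the points of `B` that differ from `w` on all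
intervals given by `K` beyond `n`) -/
theorem meager_of_code : ∃ 𝓡 : Set (ℕ → ℕ → ℕ → Prop), 𝓡.Countable ∧ ∀ N : Set ZFSet.{0},
    IsZFC N → HasTabs N 𝓡 → ∀ K w, st K ∈ N → st w ∈ N → Inf K → ∀ B, Pts N B →
      (∀ x, st x ∈ B → ∃ m, ∀ l l', m ≤ l → l < l' → K l = true → K l' = true →
        ∃ k, l ≤ k ∧ k < l' ∧ x k ≠ w k) → Meager N B := by
  refine ⟨∅, Set.countable_empty, ?_⟩
  intro N hN _ K w hK hw hinf B hB hcode
  -- the property of `(n, x)` in terms of sets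
  obtain ⟨P, hP⟩ : ∃ P : ZFSet.{0} → ZFSet.{0} → Prop, P = fun n x =>
      ∀ l ∈ st K, ∀ l' ∈ st K, ¬ l ∈ n → l ∈ l' → ∃ k ∈ l', ¬ k ∈ l ∧ ¬ (k ∈ x ↔ k ∈ st w) :=
    ⟨_, rfl⟩
  have hP' : ∀ n x, P (nat n) (st x) ↔ ∀ l l', n ≤ l → l < l' → K l = true → K l' = true →
        ∃ k, l ≤ k ∧ k < l' ∧ x k ≠ w k := by
    intro n x
    rw [hP]
    constructor
    · intro h l l' h1 h2 h3 h4
      obtain ⟨k, hk, h5, h6⟩ := h (nat l) (nat_mem_st.2 h3) (nat l') (nat_mem_st.2 h4)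
        (by rw [nat_mem_nat]; omega) (by rw [nat_mem_nat]; omega)
      obtain ⟨k, hk', rfl⟩ := mem_nat.1 hk
      rw [nat_mem_nat] at h5
      rw [nat_mem_st, nat_mem_st] at h6
      refine ⟨k, by omega, hk', ?_⟩
      intro h7
      rw [h7] at h6
      exact h6 Iff.rfl
    · intro h l hl l' hl' h1 h2
      obtain ⟨l, h3, rfl⟩ := mem_st.1 hl
      obtain ⟨l', h4, rfl⟩ := mem_st.1 hl'
      rw [nat_mem_nat] at h1 h2
      obtain ⟨k, h5, h6, h7⟩ := h l l' (by omega) h2 h3 h4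
      refine ⟨nat k, nat_mem_nat.2 h6, ?_, ?_⟩
      · rw [nat_mem_nat]; omega
      · rw [nat_mem_st, nat_mem_st]
        intro h8
        exact h7 (Bool.eq_iff_iff.2 h8)
  obtain ⟨Q, hQ, hQ1⟩ := exists_powerset hN hB.1
  obtain ⟨c, hc, hc1⟩ := exists_prod hN (om_mem hN) hQ
  obtain ⟨F, hF, hF1⟩ := sep4 hN
    (R := fun z p q r _ => ∃ n ∈ N, ∃ C ∈ N, z = ZFSet.pair n C ∧
      ∀ x ∈ p, (x ∈ C ↔ ∀ l ∈ q, ∀ l' ∈ q, ¬ l ∈ n → l ∈ l' →
        ∃ k ∈ l', ¬ k ∈ l ∧ ¬ (k ∈ x ↔ k ∈ r)))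
    (.ex (.ex (.and (.pair hN 2 1 0) (.allB hN 3 (.iff (.mem 0 1) (.allB hN 5 (.allB hN 6
      (.imp (.neg (.mem 1 4)) (.imp (.mem 1 0) (.exB hN 0 (.and (.neg (.mem 0 2))
        (.neg (.iff (.mem 0 3) (.mem 0 9)))))))))))))) hc hB.1 hK hw hw
  have hF2 : ∀ n C, ZFSet.pair (nat n) C ∈ F ↔ ∀ x, x ∈ C ↔ x ∈ B ∧ P (nat n) x := by
    intro n C
    rw [hF1, hc1]
    constructor
    · rintro ⟨⟨a, ha, C', hC', h1⟩, n', -, C'', -, h2, h3⟩
      obtain ⟨rfl, rfl⟩ := ZFSet.pair_inj.1 h1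
      obtain ⟨rfl, rfl⟩ := ZFSet.pair_inj.1 h2
      rw [hQ1] at hC'
      intro x
      constructor
      · intro hx
        refine ⟨hC'.2 hx, ?_⟩
        rw [hP]
        exact (h3 x (hC'.2 hx)).1 hx
      · rintro ⟨hx, h4⟩
        rw [hP] at h4
        exact (h3 x hx).2 h4
    · intro h
      have hCN : C ∈ N := by
        obtain ⟨D, hD, hD1⟩ := sep4 hN
          (R := fun x p q n r => ∀ l ∈ q, ∀ l' ∈ q, ¬ l ∈ n → l ∈ l' →
            ∃ k ∈ l', ¬ k ∈ l ∧ ¬ (k ∈ x ↔ k ∈ r))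
          (.allB hN 2 (.allB hN 3 (.imp (.neg (.mem 1 5)) (.imp (.mem 1 0) (.exB hN 0
            (.and (.neg (.mem 0 2)) (.neg (.iff (.mem 0 3) (.mem 0 7)))))))))
          hB.1 hB.1 hK (nat_mem hN n) hw
        have : C = D := by
          ext x
          rw [h, hD1, hP]
        rwa [this]
      refine ⟨⟨nat n, nat_mem_om n, C, ?_, rfl⟩, nat n, nat_mem hN n, C, hCN, rfl, ?_⟩
      · rw [hQ1]
        exact ⟨hCN, fun x hx => ((h x).1 hx).1⟩
      · intro x hx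
        rw [h]
        constructor
        · rintro ⟨-, h4⟩
          rw [hP] at h4
          exact h4
        · intro h4
          rw [hP]
          exact ⟨hx, h4⟩
  refine ⟨F, hF, ?_, ?_, ?_⟩
  · intro n C D h1 h2
    rw [hF2] at h1 h2
    ext x
    rw [h1, h2]
  · intro n C h1 s
    rw [hF2] at h1
    obtain ⟨l, hl, hl1⟩ := hinf (max n s.length)
    obtain ⟨l', hl', hl'1⟩ := hinf (l + 1)
    refine ⟨(List.range (l' - s.length)).map fun i => w (s.length + i), ?_⟩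
    intro x hx hi
    have h2 := ((h1 _).1 hx).2
    rw [hP'] at h2
    have h3 : n ≤ l := le_trans (le_max_left _ _) hl
    have h4 : s.length ≤ l := le_trans (le_max_right _ _) hl
    obtain ⟨k, h5, h6, h7⟩ := h2 l l' h3 hl' hl1 hl'1
    apply h7
    apply hi
    rw [List.getElem?_append_right (by omega)]
    have h8 : k - s.length < l' - s.length := by omega
    have h9 : s.length + (k - s.length) = k := by omega
    simp [h8, h9]
  · intro z hz
    obtain ⟨x, rfl⟩ := hB.2 z hz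
    obtain ⟨m, hm⟩ := hcode x hz
    obtain ⟨D, hD, hD1⟩ := sep4 hN
      (R := fun x p q n r => ∀ l ∈ q, ∀ l' ∈ q, ¬ l ∈ n → l ∈ l' →
        ∃ k ∈ l', ¬ k ∈ l ∧ ¬ (k ∈ x ↔ k ∈ r))
      (.allB hN 2 (.allB hN 3 (.imp (.neg (.mem 1 5)) (.imp (.mem 1 0) (.exB hN 0
        (.and (.neg (.mem 0 2)) (.neg (.iff (.mem 0 3) (.mem 0 7)))))))))
      hB.1 hB.1 hK (nat_mem hN m) hw
    refine ⟨m, D, ?_, ?_⟩
    · rw [hF2]
      intro x
      rw [hD1, hP]
    · have h1 := (hP' m x).2 hm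
      rw [hP] at h1
      exact (hD1 _).2 ⟨hz, h1⟩

end Pool.Agent.Helper60.MA
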