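import Pool.Agent.Helper68.MA.MX0
import Pool.Agent.Helper69.MA.MG

/-!
# Assembly of the analysis in the model (block MX, helper68)
-/

namespace Pool.Agent.Helper60.MA

open Pool.Agent.Helper96.Fc

theorem meagerAdd_of_caught : ∃ 𝓡 : Set (ℕ → ℕ → ℕ → Prop), 𝓡.Countable ∧
    ∀ N : Set ZFSet.{0}, IsZFC N → HasTabs N 𝓡 → ∀ X, Pts N X →
      (∀ I, st I ∈ N → Inf I → ∃ K y, st K ∈ N ∧ st y ∈ N ∧ Inf K ∧
        ∀ x, st x ∈ X → Caught I K y x) → MeagerAdd N X := by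
  obtain ⟨𝓡, h, hc⟩ := exists_code
  exact Pool.Agent.Helper68.MA.meagerAdd_of_caught_aux h hc

theorem not_meagerAdd_of_mtch : ∃ 𝓡 : Set (ℕ → ℕ → ℕ → Prop), 𝓡.Countable ∧
    ∀ N : Set ZFSet.{0}, IsZFC N → HasTabs N 𝓡 → ∀ U, Pts N U →
      (∀ J h, st J ∈ N → st h ∈ N → Inf J → ∃ x, st x ∈ U ∧ Mtch J h x) →
      ¬ MeagerAdd N U := by
  obtain ⟨𝓡, h, hc⟩ := exists_code
  exact Pool.Agent.Helper68.MA.not_meagerAdd_of_mtch_aux h hc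

end Pool.Agent.Helper60.MA
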